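import Pool.Agent.SGD.Stmts
import Pool.Agent.Helper56_SGP.CTR
import Pool.Agent.Helper56_SGY.SPL
import Pool.Agent.Helper56_SGY.CAP
import Pool.Agent.Helper7_SGY.CHL

/-!
# SGD, row EXG: a vertex which can be moved into the cluster
-/

set_option autoImplicit false

noncomputable section

namespace Pool.Agent.SGD.H49

open Pool.Agent.SGE Pool.Agent.SGP Pool.Agent.SGY Pool.Agent.SGD

variable {V : Type}

/-- if the triples of consecutive elements have a common neighbour then all of them have the same -/
theorem one {F : V → V → V → Prop} {R : V → V → Prop}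
    (fn : ∀ u v w w', F u v w → F u v w' → w = w') :
    ∀ (L : List V) (x z t : V),
      (∀ (A : List V) (p m q : V) (B : List V), x :: z :: t :: L = A ++ p :: m :: q :: B →
        ∃ y, F p m y ∧ F m q y ∧ R m y) →
      ∃ y, ∀ (A : List V) (p m q : V) (B : List V), x :: z :: t :: L = A ++ p :: m :: q :: B →
        F p m y ∧ F m q y ∧ R m y := by
  intro L
  induction L with
  | nil =>
    intro x z t h
    obtain ⟨y, hy⟩ := h [] x z t [] rfl
    refine ⟨y, ?_⟩
    intro A p m q B hA
    cases A with
    | nil =>
      simp only [List.nil_append, List.cons.injEq] at hA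
      obtain ⟨rfl, rfl, rfl, _⟩ := hA
      exact hy
    | cons s A =>
      have h1 := congrArg List.length hA
      simp only [List.length_cons, List.length_append, List.length_nil] at h1
      omega
  | cons s L ih =>
    intro x z t h
    obtain ⟨y0, h0⟩ := h [] x z t (s :: L) rfl
    obtain ⟨y, hy⟩ := ih z t s (fun A p m q B hA => h (x :: A) p m q B (by
      rw [hA]
      rfl))
    have h1 := hy [] z t s L rfl
    have h2 : y = y0 := fn _ _ _ _ h1.1 h0.2.1
    refine ⟨y, ?_⟩
    intro A p m q B hA
    cases A with
    | nil =>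
      simp only [List.nil_append, List.cons.injEq] at hA
      obtain ⟨rfl, rfl, rfl, _⟩ := hA
      rw [h2]
      exact h0
    | cons s' A =>
      simp only [List.cons_append, List.cons.injEq] at hA
      exact hy A p m q B hA.2

/-- an element of the middle part has its two neighbours -/
theorem mid_split {u w m : V} {M : List V} (hm : m ∈ M) :
    ∃ (A : List V) (p q : V) (B : List V), u :: (M ++ [w]) = A ++ p :: m :: q :: B := by
  obtain ⟨M1, M2, rfl⟩ := List.append_of_mem hm
  have h1 : ∃ A p, u :: M1 = A ++ [p] := by
    rcases List.eq_nil_or_concat' (u :: M1) with h | ⟨A, p, h⟩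
    · simp at h
    · exact ⟨A, p, h⟩
  have h2 : ∃ q B, M2 ++ [w] = q :: B := by
    cases M2 with
    | nil => exact ⟨w, [], rfl⟩
    | cons q B => exact ⟨q, B ++ [w], rfl⟩
  obtain ⟨A, p, hA⟩ := h1
  obtain ⟨q, B, hB⟩ := h2
  refine ⟨A, p, q, B, ?_⟩
  have e1 : u :: (M1 ++ m :: M2 ++ [w]) = (u :: M1) ++ m :: (M2 ++ [w]) := by simp
  rw [e1, hA, hB]
  simp

/-- below a chord which does not start at `a` there is a good vertex -/
theorem chord [Fintype V] (clo : CloStmt) (arc : ArcStmt) {a b c : V} {E : V → V → Prop}
    {F : V → V → V → Prop} {K : Set V} {C₁ C₂ : List V} (h : Stt a b c E F K C₁ C₂)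
    (hns : NoSep a E) : ∀ (n : ℕ) (P M Q : List V) (u w : V), M.length = n →
      C₁ = P ++ u :: (M ++ w :: Q) → P ≠ [] → M ≠ [] → E u w →
      ∃ (P : List V) (p v q : V) (Q : List V), C₁ = P ++ p :: v :: q :: Q ∧
        (∀ x ∈ C₁, E v x → x = p ∨ x = q) ∧
        (p = a ∨ ∃ y y', y ≠ y' ∧ y ∈ K ∪ {c} ∧ y' ∈ K ∪ {c} ∧ E v y ∧ E v y') := by
  intro n
  induction n using Nat.strong_induction_on with
  | _ n ih =>
    intro P M Q u w hn hC hP hM huw
    have hnt := h.n1
    have hoff : ∀ x ∈ C₁, x ∉ K ∪ {c} := by
      intro x hx
      obtain ⟨y, hy⟩ := Pool.Agent.SGP.H56.contour_nb hnt hx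
      exact hy.2.1
    by_contra hcon
    -- no smaller chords
    have hstar : ∀ (A M' B : List V) (s t : V), u :: (M ++ [w]) = A ++ s :: (M' ++ t :: B) →
        M' ≠ [] → E s t → A = [] ∧ B = [] := by
      intro A M' B s t hd hM' hst
      by_contra hAB
      apply hcon
      have hl : M'.length < n := by
        have h1 := congrArg List.length hd
        simp only [List.length_cons, List.length_append, List.length_nil] at h1
        rcases Classical.em (A = []) with hA | hA
        · have hB : B ≠ [] := fun hB => hAB ⟨hA, hB⟩
          have h2 : 0 < B.length := List.length_pos_iff.2 hB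
          omega
        · have h2 : 0 < A.length := List.length_pos_iff.2 hA
          omega
      refine ih M'.length hl (P ++ A) M' (B ++ Q) s t rfl ?_ ?_ hM' hst
      · rw [hC]
        have e1 : P ++ u :: (M ++ w :: Q) = P ++ ((u :: (M ++ [w])) ++ Q) := by simp
        rw [e1, hd]
        simp
      · intro h1
        exact hP (List.append_eq_nil_iff.1 h1).1
    -- the vertices of `M` have no chords
    have hnc : ∀ (A B : List V) (p m q : V), u :: (M ++ [w]) = A ++ p :: m :: q :: B →
        m ∈ M → ∀ x ∈ C₁, E m x → x = p ∨ x = q := by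
      intro A B p m q hd hm x hx hmx
      have hnt' := hnt
      rw [hC] at hnt'
      have hw : w ∈ C₁ := by rw [hC]; simp
      have hu : u ∈ C₁ := by rw [hC]; simp
      have hmC : m ∈ C₁ := by
        rw [hC]
        simp [hm]
      have h1 : x ∈ u :: (M ++ [w]) :=
        Pool.Agent.SGE.H20.chd hnt' hM ⟨huw, hoff u hu, hoff w hw⟩ m hm x (by rw [← hC]; exact hx)
          ⟨hmx, hoff m hmC, hoff x hx⟩
      rw [hd] at h1
      simp only [List.mem_append, List.mem_cons] at h1
      rcases h1 with h1 | h1 | h1 | h1 | h1
      · exfalso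
        obtain ⟨A1, A2, rfl⟩ := List.append_of_mem h1
        have h2 := hstar A1 (A2 ++ [p]) (q :: B) x m (by rw [hd]; simp) (by simp)
          (h.nt.sym _ _ hmx)
        simp at h2
      · exact Or.inl h1
      · rw [h1] at hmx
        exact absurd hmx (h.nt.irr m)
      · exact Or.inr h1
      · exfalso
        obtain ⟨B1, B2, rfl⟩ := List.append_of_mem h1
        have h2 := hstar (A ++ [p]) (q :: B1) B2 m x (by rw [hd]; simp) (by simp) hmx
        simp at h2
    -- the ends of the middle part
    have hmm : ∀ (A B : List V) (p m q : V), u :: (M ++ [w]) = A ++ p :: m :: q :: B →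
        m ∈ M := by
      intro A B p m q hd
      cases A with
      | nil =>
        simp only [List.nil_append, List.cons.injEq] at hd
        have h1 := hd.2
        cases M with
        | nil => exact absurd rfl hM
        | cons m1 M1 =>
          simp only [List.cons_append, List.cons.injEq] at h1
          rw [h1.1]
          simp
      | cons s A =>
        simp only [List.cons_append, List.cons.injEq] at hd
        have h1 := hd.2
        rcases List.eq_nil_or_concat' B with rfl | ⟨B', t, rfl⟩
        · have h2 : M ++ [w] = (A ++ [p, m]) ++ [q] := by rw [h1]; simp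
          have h3 := List.append_inj_left' h2 rfl
          rw [h3]
          simp
        · have h2 : M ++ [w] = (A ++ p :: m :: q :: B') ++ [t] := by rw [h1]; simp
          have h3 := List.append_inj_left' h2 rfl
          rw [h3]
          simp
    -- every vertex of `M` has exactly one neighbour in the cluster
    have hone : ∀ (A : List V) (p m q : V) (B : List V), u :: (M ++ [w]) = A ++ p :: m :: q :: B →
        ∃ y, F p m y ∧ F m q y ∧ (y ∈ K ∪ {c} ∧ ∀ y' ∈ K ∪ {c}, E m y' → y' = y) := by
      intro A p m q B hd
      have hm := hmm A B p m q hd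
      have hC' : C₁ = (P ++ A) ++ p :: m :: q :: (B ++ Q) := by
        rw [hC]
        have e1 : P ++ u :: (M ++ w :: Q) = P ++ ((u :: (M ++ [w])) ++ Q) := by simp
        rw [e1, hd]
        simp
      obtain ⟨Y, hY, hch, hnd, hYm⟩ := arc h (P ++ A) p m q (B ++ Q) hC'
      have huniq : ∀ y y', y ∈ Y → y' ∈ Y → y = y' := by
        intro y y' hy hy'
        by_contra hne
        apply hcon
        exact ⟨P ++ A, p, m, q, B ++ Q, hC', hnc A B p m q hd hm,
          Or.inr ⟨y, y', hne, ((hYm y).1 hy).2, ((hYm y').1 hy').2, ((hYm y).1 hy).1,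
            ((hYm y').1 hy').1⟩⟩
      cases Y with
      | nil => exact absurd rfl hY
      | cons y Y =>
        have hY0 : Y = [] := by
          cases Y with
          | nil => rfl
          | cons y' Y =>
            exfalso
            have h1 : y = y' := huniq y y' (by simp) (by simp)
            rw [h1] at hnd
            simp at hnd
        subst hY0
        simp only [List.singleton_append, List.isChain_cons_cons, List.IsChain.singleton,
          and_true] at hch
        refine ⟨y, h.nt.rot _ _ _ (h.nt.rot _ _ _ hch.2), hch.1, ((hYm y).1 (by simp)).2, ?_⟩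
        intro y' hy' hmy'
        exact huniq y' y ((hYm y').2 ⟨hmy', hy'⟩) (by simp)
    have hthree : ∃ m1 t L, u :: (M ++ [w]) = u :: m1 :: t :: L := by
      cases M with
      | nil => exact absurd rfl hM
      | cons m1 M1 =>
        cases M1 with
        | nil => exact ⟨m1, w, [], rfl⟩
        | cons m2 M2 => exact ⟨m1, m2, M2 ++ [w], rfl⟩
    obtain ⟨m1, t, L, hthree⟩ := hthree
    obtain ⟨y, hy⟩ := one (F := F)
      (R := fun m y => y ∈ K ∪ {c} ∧ ∀ y' ∈ K ∪ {c}, E m y' → y' = y) h.nt.fn L u m1 t
      (by rw [← hthree]; exact hone)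
    rw [← hthree] at hy
    -- the triangle
    have hyu : E y u := by
      have h1 := hy [] u m1 t L (by rw [hthree]; rfl)
      exact h.nt.fe _ _ _ (h.nt.rot _ _ _ (h.nt.rot _ _ _ h1.1))
    have hyK : y ∈ K ∪ {c} := (hy [] u m1 t L (by rw [hthree]; rfl)).2.2.1
    have hwy : E w y := by
      rcases List.eq_nil_or_concat' M with rfl | ⟨M', m, rfl⟩
      · exact absurd rfl hM
      · have h1 : ∃ A p, u :: M' = A ++ [p] := by
          rcases List.eq_nil_or_concat' (u :: M') with h | ⟨A, p, h⟩
          · simp at h
          · exact ⟨A, p, h⟩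
        obtain ⟨A, p, hA⟩ := h1
        have h2 := hy A p m w [] (by
          have e1 : u :: (M' ++ [m] ++ [w]) = (u :: M') ++ [m, w] := by simp
          rw [e1, hA]
          simp)
        exact h.nt.fe _ _ _ (h.nt.rot _ _ _ h2.2.1)
    -- the split
    have hw : w ∈ C₁ := by rw [hC]; simp
    have hu : u ∈ C₁ := by rw [hC]; simp
    have hnt' := hnt
    rw [hC] at hnt'
    obtain ⟨U, hU1, hU2, hU3, hU4, _, _⟩ := Pool.Agent.SGY.H56.spl Pool.Agent.SGY.H7.chl
      Pool.Agent.SGY.H56.cap hnt' ⟨huw, hoff u hu, hoff w hw⟩
    have hUoff : ∀ s ∈ U, s ∉ K ∪ {c} := by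
      intro s hs
      obtain ⟨t, ht⟩ := hU3 s hs
      exact ht.2.1
    have hPC : ∀ x ∈ P, x ∈ P ++ u :: w :: Q := by
      intro x hx
      simp [hx]
    have haP : a ∈ P := by
      have h1 := hnt.hd
      rw [hC] at h1
      cases P with
      | nil => exact absurd rfl hP
      | cons s P =>
        simp only [List.cons_append, List.head?_cons, Option.some.injEq] at h1
        rw [h1]
        simp
    have haC : a ∈ C₁ := by
      rw [hC]
      simp [haP]
    have hnd := hnt.nd
    rw [hC, List.nodup_append] at hnd
    have hfin := hns U u w y huw hwy hyu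
      (by
        cases M with
        | nil => exact absurd rfl hM
        | cons m M => exact ⟨m, hU1 m (by simp)⟩)
      (fun s hs => by
        obtain ⟨t, ht⟩ := hU3 s hs
        exact ⟨t, ht.1⟩)
      (hU2 u (by simp)) (hU2 w (by simp)) (fun hyU => hUoff y hyU hyK)
      (by
        intro s hs t hst
        by_cases htK : t ∈ K ∪ {c}
        · right; right; right
          have hsC : s ∈ C₁ := by
            by_contra hsC
            exact clo h s hsC (hU3 s hs) t hst htK
          have hsM : s ∈ M := by
            rw [hC] at hsC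
            simp only [List.mem_append, List.mem_cons] at hsC
            rcases hsC with h1 | h1 | h1 | h1 | h1
            · exact absurd hs (hU2 s (by simp [h1]))
            · exact absurd hs (hU2 s (by simp [h1]))
            · exact h1
            · exact absurd hs (hU2 s (by simp [h1]))
            · exact absurd hs (hU2 s (by simp [h1]))
          obtain ⟨A, p, q, B, hd⟩ := mid_split (u := u) (w := w) hsM
          exact (hy A p s q B hd).2.2.2 t htK hst
        · rcases hU4 s hs t ⟨hst, hUoff s hs, htK⟩ with h1 | h1 | h1
          · exact Or.inl h1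
          · exact Or.inr (Or.inl h1)
          · exact Or.inr (Or.inr (Or.inl h1)))
      (hU2 a (hPC a haP))
    rcases hfin with h1 | h1 | h1
    · exact hnd.2.2 a haP u (by simp) h1
    · exact hnd.2.2 a haP w (by simp) h1
    · exact hoff a haC (by rw [h1]; exact hyK)

theorem exg (clo : CloStmt) (arc : ArcStmt) : ExgStmt := by
  intro V _ a b c E F K C₁ C₂ h hns hne
  by_contra hcon
  have hnt := h.n1
  obtain ⟨x, hx⟩ := hne
  -- the contour has at least three elements
  have hthree : ∃ v q Q, C₁ = a :: v :: q :: Q := by
    have h1 := hnt.hd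
    have h2 := hnt.ls
    cases C₁ with
    | nil => simp at h1
    | cons s C =>
      simp only [List.head?_cons, Option.some.injEq] at h1
      subst h1
      cases C with
      | nil =>
        simp only [List.getLast?_singleton, Option.some.injEq] at h2
        exact absurd h2 hnt.ab
      | cons v C =>
        cases C with
        | nil =>
          exfalso
          have h3 : v = b := by simpa using h2
          subst h3
          have hxK : x ∉ K ∪ {c} := by
            intro h4
            rcases h4 with h4 | h4
            · exact hx.2 h4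
            · exact hx.1.2.2.1 h4
          obtain ⟨y, hy⟩ := h.r1 x hx.1.2.2.2 hxK
          rcases Pool.Agent.SGP.H56.two hnt hy with h4 | h4
          · exact hx.1.1 h4
          · exact hx.1.2.1 h4
        | cons q Q => exact ⟨v, q, Q, rfl⟩
  obtain ⟨v, q, Q, hC⟩ := hthree
  apply hcon
  refine ⟨[], a, v, q, Q, by rw [hC]; rfl, ?_, Or.inl rfl⟩
  intro x hx hvx
  rw [hC] at hx
  simp only [List.mem_cons] at hx
  rcases hx with h1 | h1 | h1 | h1
  · exact Or.inl h1
  · rw [h1] at hvx
    exact absurd hvx (h.nt.irr v)
  · exact Or.inr h1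
  · exfalso
    obtain ⟨Q1, Q2, rfl⟩ := List.append_of_mem h1
    apply hcon
    exact chord clo arc h hns _ [a] (q :: Q1) Q2 v x rfl (by rw [hC]; simp) (by simp) (by simp) hvx

end Pool.Agent.SGD.H49
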